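import Mathlib

/-!
# MP_a6ecd6_co: a latin hypercube with a `k`-multiplex need not have a `k`-plex

We exhibit a latin square (`d = 2`) of order `n = 6` that has a `5`-multiplex but no `5`-plex.
The square has no transversal, hence (complementing) no `5`-plex; but it has a `2`-plex and a
`3`-plex, whose union as multisets is a `5`-multiplex.
-/

namespace Pool.Agent.Results.MP_a6ecd6_co.MultiplexNoPlex

/-- `Q : [n]^d → [n]` is a `d`-dimensional latin hypercube of order `n`: whenever all coordinates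
but the `i`-th are fixed, the `i`-th coordinate ranging over `[n]` gives every symbol exactly
once. -/
def IsLatinHypercube {d n : ℕ} (Q : (Fin d → Fin n) → Fin n) : Prop :=
  ∀ (i : Fin d) (x : Fin d → Fin n), Function.Bijective fun a : Fin n => Q (Function.update x i a)

/-- A multiset `K` of cells is a `k`-multiplex of `Q`: it has `k n` elements, every hyperplane
`{x : x i = a}` contains exactly `k` of them and every symbol `s` is the symbol of exactly `k`
of them (all counted with multiplicity). -/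
def IsMultiplex {d n : ℕ} (Q : (Fin d → Fin n) → Fin n) (k : ℕ)
    (K : Multiset (Fin d → Fin n)) : Prop :=
  K.card = k * n ∧
    (∀ (i : Fin d) (a : Fin n), (K.filter fun x => x i = a).card = k) ∧
    ∀ s : Fin n, (K.filter fun x => Q x = s).card = k

/-- A `k`-plex is a `k`-multiplex in which no cell is repeated. -/
def IsPlex {d n : ℕ} (Q : (Fin d → Fin n) → Fin n) (k : ℕ)
    (K : Multiset (Fin d → Fin n)) : Prop :=
  IsMultiplex Q k K ∧ K.Nodup

/-- The latin square. -/
def tab : Fin 6 → Fin 6 → Fin 6 :=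
  ![![2, 0, 4, 5, 1, 3], ![4, 2, 3, 1, 5, 0], ![3, 5, 1, 0, 4, 2], ![5, 3, 0, 4, 2, 1],
    ![1, 4, 2, 3, 0, 5], ![0, 1, 5, 2, 3, 4]]

/-- The latin square as a `2`-dimensional latin hypercube. -/
def Q0 (x : Fin 2 → Fin 6) : Fin 6 := tab (x 0) (x 1)

/-- The cells of a `5`-multiplex: a `2`-plex and a `3`-plex put together. -/
def K0 : Multiset (Fin 2 → Fin 6) :=
  ((([![0, 4], ![0, 5], ![1, 2], ![1, 4], ![2, 1], ![2, 5], ![3, 2], ![3, 3], ![4, 0], ![4, 1],
      ![5, 0], ![5, 3]] : List (Fin 2 → Fin 6)) ++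
    [![0, 0], ![0, 1], ![0, 4], ![1, 1], ![1, 2], ![1, 4], ![2, 0], ![2, 2], ![2, 3],
      ![3, 3], ![3, 4], ![3, 5], ![4, 1], ![4, 3], ![4, 5], ![5, 0], ![5, 2], ![5, 5]] :
        List (Fin 2 → Fin 6)) : Multiset (Fin 2 → Fin 6))

theorem latin : IsLatinHypercube Q0 := by
  have h0 : ∀ b : Fin 6, Function.Injective fun a : Fin 6 => tab a b := by decide +kernel
  have h1 : ∀ a : Fin 6, Function.Injective fun b : Fin 6 => tab a b := by decide +kernel
  intro i x
  rw [← Finite.injective_iff_bijective]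
  fin_cases i
  · intro a b hab
    have := h0 (x 1) (a₁ := a) (a₂ := b)
    apply this
    simpa [Q0, Function.update] using hab
  · intro a b hab
    have := h1 (x 0) (a₁ := a) (a₂ := b)
    apply this
    simpa [Q0, Function.update] using hab

theorem multiplex : IsMultiplex Q0 5 K0 := by
  refine ⟨by decide +kernel, by decide +kernel, by decide +kernel⟩

/-- `ok i c j` says that the cells `(i, c i)`, `(j, c j)` have different columns and symbols. -/
def ok (i ci j cj : Fin 6) : Bool := decide (ci ≠ cj) && decide (tab i ci ≠ tab j cj)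

theorem noTransversal :
    ∀ c0 c1 : Fin 6, ok 0 c0 1 c1 = true →
    ∀ c2 : Fin 6, (ok 0 c0 2 c2 && ok 1 c1 2 c2) = true →
    ∀ c3 : Fin 6, (ok 0 c0 3 c3 && ok 1 c1 3 c3 && ok 2 c2 3 c3) = true →
    ∀ c4 : Fin 6, (ok 0 c0 4 c4 && ok 1 c1 4 c4 && ok 2 c2 4 c4 && ok 3 c3 4 c4) = true →
    ∀ c5 : Fin 6, (ok 0 c0 5 c5 && ok 1 c1 5 c5 && ok 2 c2 5 c5 && ok 3 c3 5 c5 &&
      ok 4 c4 5 c5) = false := by
  decide +kernel

/-- counting in the complement of a set of cells -/
theorem compl_card (S : Finset (Fin 2 → Fin 6)) (p : (Fin 2 → Fin 6) → Prop) [DecidablePred p]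
    (hS : (S.filter p).card = 5) (hp : ((Finset.univ : Finset (Fin 2 → Fin 6)).filter p).card = 6) :
    ((Sᶜ).filter p).card = 1 := by
  have h : (Finset.univ : Finset (Fin 2 → Fin 6)).filter p = S.filter p ∪ (Sᶜ).filter p := by
    rw [← Finset.filter_union, Finset.union_compl]
  have hd : Disjoint (S.filter p) ((Sᶜ).filter p) :=
    Finset.disjoint_filter_filter disjoint_compl_right
  rw [h, Finset.card_union_of_disjoint hd, hS] at hp
  omega

theorem noPlex : ¬ ∃ K, IsPlex Q0 5 K := by
  rintro ⟨K, ⟨-, h1, h2⟩, hnd⟩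
  obtain ⟨S, rfl⟩ : ∃ S : Finset (Fin 2 → Fin 6), S.val = K := ⟨⟨K, hnd⟩, rfl⟩
  have row : ∀ a : Fin 6, ((Sᶜ).filter fun x => x 0 = a).card = 1 := fun a =>
    compl_card S _ (by simpa [Finset.card, Finset.filter_val] using h1 0 a)
      (by revert a; decide +kernel)
  have col : ∀ a : Fin 6, ((Sᶜ).filter fun x => x 1 = a).card = 1 := fun a =>
    compl_card S _ (by simpa [Finset.card, Finset.filter_val] using h1 1 a)
      (by revert a; decide +kernel)
  have sym : ∀ a : Fin 6, ((Sᶜ).filter fun x => Q0 x = a).card = 1 := fun a =>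
    compl_card S _ (by simpa [Finset.card, Finset.filter_val] using h2 a)
      (by revert a; decide +kernel)
  have ex : ∀ a : Fin 6, ∃ b : Fin 6, (![a, b] : Fin 2 → Fin 6) ∈ Sᶜ := by
    intro a
    obtain ⟨x, hx⟩ := Finset.card_eq_one.mp (row a)
    have hx' : x ∈ (Sᶜ).filter fun x => x 0 = a := by rw [hx]; exact Finset.mem_singleton_self x
    rw [Finset.mem_filter] at hx'
    refine ⟨x 1, ?_⟩
    have : (![a, x 1] : Fin 2 → Fin 6) = x := by
      funext i
      fin_cases i
      · simp [hx'.2]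
      · simp
    rw [this]
    exact hx'.1
  choose c hc using ex
  have okc : ∀ a b : Fin 6, a ≠ b → ok a (c a) b (c b) = true := by
    intro a b hab
    have h1 : c a ≠ c b := by
      intro he
      have h := Finset.card_le_one.mp (le_of_eq (col (c b)))
        ![a, c a] (by simp only [Finset.mem_filter]; exact ⟨hc a, by simp [he]⟩)
        ![b, c b] (by simp only [Finset.mem_filter]; exact ⟨hc b, by simp⟩)
      exact hab (by simpa using congrFun h 0)
    have h2 : tab a (c a) ≠ tab b (c b) := by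
      intro he
      have h := Finset.card_le_one.mp (le_of_eq (sym (tab b (c b))))
        ![a, c a] (by simp only [Finset.mem_filter]; exact ⟨hc a, by simp [Q0, he]⟩)
        ![b, c b] (by simp only [Finset.mem_filter]; exact ⟨hc b, by simp [Q0]⟩)
      exact hab (by simpa using congrFun h 0)
    simp [ok, h1, h2]
  have := noTransversal (c 0) (c 1) (okc 0 1 (by decide))
    (c 2) (by rw [okc 0 2 (by decide), okc 1 2 (by decide)]; rfl)
    (c 3) (by rw [okc 0 3 (by decide), okc 1 3 (by decide), okc 2 3 (by decide)]; rfl)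
    (c 4) (by rw [okc 0 4 (by decide), okc 1 4 (by decide), okc 2 4 (by decide),
      okc 3 4 (by decide)]; rfl)
    (c 5)
  rw [okc 0 5 (by decide), okc 1 5 (by decide), okc 2 5 (by decide), okc 3 5 (by decide),
    okc 4 5 (by decide)] at this
  exact absurd this (by decide)

/-- There is a latin square (a `2`-dimensional latin hypercube) of order `6` with a `5`-multiplex
and no `5`-plex; hence the assertion of Q1 is false. -/
theorem result :
    (∃ Q : (Fin 2 → Fin 6) → Fin 6, IsLatinHypercube Q ∧ (∃ K, IsMultiplex Q 5 K) ∧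
      ¬ ∃ K, IsPlex Q 5 K) ∧
    ¬ ∀ d n k : ℕ, 2 ≤ d → 1 ≤ n → 1 ≤ k → k ≤ n ^ (d - 1) →
      ∀ Q : (Fin d → Fin n) → Fin n, IsLatinHypercube Q →
        (∃ K, IsMultiplex Q k K) → ∃ K, IsPlex Q k K := by
  refine ⟨⟨Q0, latin, ⟨K0, multiplex⟩, noPlex⟩, fun h => ?_⟩
  exact noPlex (h 2 6 5 (by norm_num) (by norm_num) (by norm_num) (by norm_num) Q0 latin
    ⟨K0, multiplex⟩)

end Pool.Agent.Results.MP_a6ecd6_co.MultiplexNoPlex
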